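import Pool.Agent.NH29.GH.Fmt
import Pool.Agent.NH29.GN.Stm6

/-!
# The first main theorem for a finite set of places (adapted from `Pool.Agent.NH29.GH.Fmt`, helper63)
-/

set_option autoImplicit false

namespace Pool.Agent.U582.GN

open MvPolynomial Module Height NumberField
open Pool.Agent.NH29.GN (Idx Mon fv val cnt)
open Pool.Agent.NH29.GH.FmtPf

theorem fmtS (E : Type) [Field E] [NumberField E] (S : Finset (FinitePlace E)) (M e : ℕ)
    (t : Mon M e → E) (x : Fin (M + 1) → E) (hy : ∑ β, t β * val x β.1 ≠ 0) :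
    ∑ w : InfinitePlace E, (w.mult : ℝ) *
        Real.log ((⨆ β, w (t β)) * (⨆ a, w (x a)) ^ e / w (∑ β, t β * val x β.1)) +
      ∑ v ∈ S, Real.log ((⨆ β, v (t β)) * (⨆ a, v (x a)) ^ e / v (∑ β, t β * val x β.1)) +
      cnt S t x = logHeight t + e * logHeight x := by
  classical
  unfold cnt
  set y : E := ∑ β, t β * val x β.1 with hydef
  have ht : t ≠ 0 := by
    rintro rfl
    refine hy ?_
    rw [hydef]
    exact Finset.sum_eq_zero fun β _ => by rw [Pi.zero_apply, zero_mul]
  have hx : e ≠ 0 → x ≠ 0 := by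
    rintro he rfl
    refine hy ?_
    rw [hydef]
    refine Finset.sum_eq_zero fun β _ => ?_
    have h1 : β.1 ≠ 0 := by
      intro h0
      have h2 := β.2
      rw [h0, map_zero] at h2
      exact he h2.symm
    obtain ⟨i, hi⟩ := Finsupp.ne_iff.1 h1
    have h3 : val (0 : Fin (M + 1) → E) β.1 = 0 := by
      refine Finset.prod_eq_zero (Finset.mem_univ i) ?_
      rw [Pi.zero_apply]
      exact zero_pow hi
    rw [h3, mul_zero]
  -- the local identity
  have key : ∀ f : E → ℝ, (∀ a, a ≠ 0 → 0 < f a) →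
      Real.log ((⨆ β, f (t β)) * (⨆ a, f (x a)) ^ e / f y) =
        Real.log (⨆ β, f (t β)) + e * Real.log (⨆ a, f (x a)) - Real.log (f y) := by
    intro f hf
    have hT := sup_pos ht f hf
    have hY := hf y hy
    have hX : 0 < (⨆ a, f (x a)) ^ e := by
      by_cases he : e = 0
      · rw [he, pow_zero]
        exact one_pos
      · exact pow_pos (sup_pos (hx he) f hf) _
    rw [Real.log_div (mul_pos hT hX).ne' hY.ne', Real.log_mul hT.ne' hX.ne', Real.log_pow]
  have keyI : ∀ w : InfinitePlace E, Real.log ((⨆ β, w (t β)) * (⨆ a, w (x a)) ^ e / w y) =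
      Real.log (⨆ β, w (t β)) + e * Real.log (⨆ a, w (x a)) - Real.log (w y) := fun w =>
    key (fun a => w a) fun a ha => InfinitePlace.pos_iff.2 ha
  have keyF : ∀ w : FinitePlace E, Real.log ((⨆ β, w (t β)) * (⨆ a, w (x a)) ^ e / w y) =
      Real.log (⨆ β, w (t β)) + e * Real.log (⨆ a, w (x a)) - Real.log (w y) := fun w =>
    key (fun a => w a) fun a ha => FinitePlace.pos_iff.2 ha
  -- finite supports
  have sT := sup_supp ht
  have sX : (Function.support fun v : FinitePlace E => (e : ℝ) * Real.log (⨆ i, v (x i))).Finite := by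
    by_cases he : e = 0
    · refine Set.finite_empty.subset fun v hv => hv ?_
      show (e : ℝ) * _ = 0
      rw [he, Nat.cast_zero, zero_mul]
    · refine (sup_supp (hx he)).subset fun v hv h => hv ?_
      show (e : ℝ) * Real.log (⨆ i, v (x i)) = 0
      rw [show Real.log (⨆ i, v (x i)) = 0 from h, mul_zero]
  have sY : (Function.support fun v : FinitePlace E => Real.log (v y)).Finite := by
    refine (Pool.Agent.NH29.GN.CntAux.fin_supp y).subset fun v hv => ⟨hy, fun h => hv ?_⟩
    show Real.log (v y) = 0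
    rw [h, Real.log_one]
  have sG : (Function.support fun w : FinitePlace E =>
      Real.log ((⨆ β, w (t β)) * (⨆ a, w (x a)) ^ e / w y)).Finite := by
    refine ((sT.union sX).union sY).subset fun v hv => ?_
    by_contra hcon
    rw [Set.mem_union, Set.mem_union, not_or, not_or] at hcon
    obtain ⟨⟨c1, c2⟩, c3⟩ := hcon
    rw [Function.notMem_support] at c1 c2 c3
    refine hv ?_
    show Real.log ((⨆ β, v (t β)) * (⨆ a, v (x a)) ^ e / v y) = 0
    rw [keyF, c1, c2, c3]
    norm_num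
  rw [add_assoc]
  have hs := split (fun w : FinitePlace E =>
    Real.log ((⨆ β, w (t β)) * (⨆ a, w (x a)) ^ e / w y)) sG (fun w => w ∉ S)
  have hS : ∑ᶠ w : {w : FinitePlace E // ¬ w ∉ S},
      Real.log ((⨆ β, w.1 (t β)) * (⨆ a, w.1 (x a)) ^ e / w.1 y) =
      ∑ v ∈ S, Real.log ((⨆ β, v (t β)) * (⨆ a, v (x a)) ^ e / v y) := by
    rw [finsum_subtype_eq_finsum_cond (f := fun w : FinitePlace E =>
      Real.log ((⨆ β, w (t β)) * (⨆ a, w (x a)) ^ e / w y)) (fun w => ¬ w ∉ S)]
    rw [← finsum_mem_finset_eq_sum]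
    refine finsum_congr fun w => ?_
    simp only [not_not]
  have hs' : ∑ v ∈ S, Real.log ((⨆ β, v (t β)) * (⨆ a, v (x a)) ^ e / v y) +
      ∑ᶠ w : {w : FinitePlace E // w ∉ S},
        Real.log ((⨆ β, w.1 (t β)) * (⨆ a, w.1 (x a)) ^ e / w.1 y) =
      ∑ᶠ w : FinitePlace E, Real.log ((⨆ β, w (t β)) * (⨆ a, w (x a)) ^ e / w y) := by
    rw [← hS]
    exact hs
  rw [hs']
  -- the sum over the finite places
  have hF : ∑ᶠ w : FinitePlace E, Real.log ((⨆ β, w (t β)) * (⨆ a, w (x a)) ^ e / w y) =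
      ∑ᶠ w : FinitePlace E, Real.log (⨆ β, w (t β)) +
        ∑ᶠ w : FinitePlace E, (e : ℝ) * Real.log (⨆ a, w (x a)) -
        ∑ᶠ w : FinitePlace E, Real.log (w y) := by
    rw [finsum_congr keyF, ← finsum_add_distrib sT sX, ← finsum_sub_distrib _ sY]
    exact ((sT.union sX)).subset (Function.support_add _ _)
  have hF2 : ∑ᶠ w : FinitePlace E, (e : ℝ) * Real.log (⨆ a, w (x a)) =
      e * ∑ᶠ w : FinitePlace E, Real.log (⨆ a, w (x a)) := by
    by_cases he : e = 0
    · rw [he]
      simp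
    · exact (mul_finsum _ _).symm
  have hI : ∑ w : InfinitePlace E, (w.mult : ℝ) *
      Real.log ((⨆ β, w (t β)) * (⨆ a, w (x a)) ^ e / w y) =
      ∑ w : InfinitePlace E, (w.mult : ℝ) * Real.log (⨆ β, w (t β)) +
        e * ∑ w : InfinitePlace E, (w.mult : ℝ) * Real.log (⨆ a, w (x a)) -
        ∑ w : InfinitePlace E, (w.mult : ℝ) * Real.log (w y) := by
    rw [Finset.mul_sum, ← Finset.sum_add_distrib, ← Finset.sum_sub_distrib]
    refine Finset.sum_congr rfl fun w _ => ?_
    rw [keyI]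
    ring
  rw [hF, hF2, hI]
  have hh := height_sum ht
  have hp := prod_formula hy
  have hxx : (e : ℝ) * (∑ w : InfinitePlace E, (w.mult : ℝ) * Real.log (⨆ i, w (x i)) +
      ∑ᶠ w : FinitePlace E, Real.log (⨆ i, w (x i))) = e * logHeight x := by
    by_cases he : e = 0
    · rw [he, Nat.cast_zero, zero_mul, zero_mul]
    · rw [height_sum (hx he)]
  rw [← hh, ← hxx]
  linarith

end Pool.Agent.U582.GN
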